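import Mathlib

/-!
# Every rectifiable `p`-space with countable Souslin number is Lindelöf
-/

namespace Pool.Agent.Results.MP_46c3d4_gt.RectifiableLindelof

open Set Filter Topology

universe u

/-- `X` is rectifiable: there are `e ∈ X` and a homeomorphism `φ` of `X × X` onto itself with
`φ ({x} × X) = {x} × X` and `φ (x, x) = (x, e)` for all `x`. -/
def Rectifiable (X : Type u) [TopologicalSpace X] : Prop :=
  ∃ (e : X) (φ : (X × X) ≃ₜ (X × X)),
    (∀ x : X, φ '' ({x} ×ˢ (Set.univ : Set X)) = {x} ×ˢ (Set.univ : Set X)) ∧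
      ∀ x : X, φ (x, x) = (x, e)

/-- The star of the point `x` with respect to the family `γ`. -/
def star {Y : Type u} (x : Y) (γ : Set (Set Y)) : Set Y := ⋃₀ {U | U ∈ γ ∧ x ∈ U}

/-- `X` is a `p`-space in the sense of Arhangel'skii (`StoneCech X` is the Stone–Čech
compactification and `stoneCechUnit` is the canonical map of `X` to it). -/
def PSpace (X : Type u) [TopologicalSpace X] : Prop :=
  T35Space X ∧ ∃ γ : ℕ → Set (Set (StoneCech X)),
    (∀ n, ∀ U ∈ γ n, IsOpen U) ∧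
    (∀ n, ∀ x : X, ∃ U ∈ γ n, stoneCechUnit x ∈ U) ∧
    ∀ x : X, (⋂ n, star (stoneCechUnit x) (γ n)) ⊆ Set.range (stoneCechUnit : X → StoneCech X)

/-- The Souslin number (cellularity) of `X` is countable. -/
def CountableSouslin (X : Type u) [TopologicalSpace X] : Prop :=
  ∀ 𝒟 : Set (Set X), (∀ D ∈ 𝒟, IsOpen D ∧ D.Nonempty) → 𝒟.PairwiseDisjoint id → 𝒟.Countable

/-- Every point of a `p`-space lies in a compact set with a countable outer base. -/
lemma exists_compact_base {X : Type u} [TopologicalSpace X] (h : PSpace X) (e : X) :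
    ∃ (K : Set X) (U : ℕ → Set X), IsCompact K ∧ e ∈ K ∧ (∀ n, IsOpen (U n)) ∧
      (∀ n, K ⊆ U n) ∧ ∀ O : Set X, IsOpen O → K ⊆ O → ∃ n, U n ⊆ O := by
  obtain ⟨hT, γ, hγo, hγc, hγs⟩ := h
  choose G hGγ hGe using fun n => hγc n e
  have hemb : IsEmbedding (stoneCechUnit : X → StoneCech X) := isEmbedding_stoneCechUnit
  -- one step
  have hstep : ∀ O : Set (StoneCech X), IsOpen O → stoneCechUnit e ∈ O →
      ∃ V : Set (StoneCech X), IsOpen V ∧ stoneCechUnit e ∈ V ∧ closure V ⊆ O := by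
    intro O hO he
    obtain ⟨t, ht1, ht2, ht3⟩ := exists_mem_nhds_isClosed_subset (hO.mem_nhds he)
    refine ⟨interior t, isOpen_interior, mem_interior_iff_mem_nhds.2 ht1, ?_⟩
    exact (closure_minimal interior_subset ht2).trans ht3
  let T : Type u := {V : Set (StoneCech X) // IsOpen V ∧ stoneCechUnit e ∈ V}
  have hstep' : ∀ (n : ℕ) (V : T), ∃ V' : T, closure V'.1 ⊆ V.1 ∩ G n := by
    intro n V
    obtain ⟨V', h1, h2, h3⟩ := hstep (V.1 ∩ G n) (V.2.1.inter (hγo n _ (hGγ n))) ⟨V.2.2, hGe n⟩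
    exact ⟨⟨V', h1, h2⟩, h3⟩
  choose f hf using hstep'
  let V : ℕ → T := fun n => Nat.rec ⟨Set.univ, isOpen_univ, Set.mem_univ _⟩ (fun n V => f n V) n
  have hV : ∀ n, closure (V (n + 1)).1 ⊆ (V n).1 ∩ G n := fun n => hf n (V n)
  let K : Set (StoneCech X) := ⋂ n, closure (V n).1
  have hKG : K ⊆ Set.range (stoneCechUnit : X → StoneCech X) := by
    intro y hy
    apply hγs e
    refine Set.mem_iInter.2 (fun n => ⟨G n, ⟨hGγ n, hGe n⟩, ?_⟩)
    exact (hV n (Set.mem_iInter.1 hy (n + 1))).2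
  have hKV : ∀ n, K ⊆ (V n).1 := fun n y hy => (hV n (Set.mem_iInter.1 hy (n + 1))).1
  have hanti : Antitone (fun n => closure (V n).1) := by
    apply antitone_nat_of_succ_le
    intro n
    exact (hV n).trans (Set.inter_subset_left.trans subset_closure)
  have hKc : IsCompact K := (isClosed_iInter (fun n => isClosed_closure)).isCompact
  have himg : stoneCechUnit '' (stoneCechUnit ⁻¹' K : Set X) = K :=
    Set.image_preimage_eq_of_subset hKG
  refine ⟨stoneCechUnit ⁻¹' K, fun n => stoneCechUnit ⁻¹' (V n).1, ?_, ?_, ?_, ?_, ?_⟩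
  · rw [hemb.isCompact_iff, himg]
    exact hKc
  · exact Set.mem_iInter.2 (fun n => subset_closure (V n).2.2)
  · exact fun n => (V n).2.1.preimage continuous_stoneCechUnit
  · exact fun n => Set.preimage_mono (hKV n)
  · intro O hO hKO
    obtain ⟨O', hO', rfl⟩ := hemb.isOpen_iff.1 hO
    have hKO' : K ⊆ O' := by
      rw [← himg]
      exact Set.image_subset_iff.2 hKO
    obtain ⟨n, hn⟩ := exists_subset_nhds_of_compactSpace (V := fun n => closure (V n).1)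
      (U := O') (directed_of_isDirected_le (fun i j hij => hanti hij))
      (fun n => isClosed_closure) (fun x hx => hO'.mem_nhds (hKO' hx))
    exact ⟨n, Set.preimage_mono (subset_closure.trans hn)⟩

/-- In a space with countable Souslin number, a hereditary family of open sets has a countable
subfamily whose union meets every open set that meets the union of the whole family. -/
lemma exists_countable_dense {X : Type u} [TopologicalSpace X] (hc : CountableSouslin X)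
    (𝒲 : Set (Set X)) (ho : ∀ W ∈ 𝒲, IsOpen W) (hh : ∀ W ∈ 𝒲, ∀ W', IsOpen W' → W' ⊆ W → W' ∈ 𝒲) :
    ∃ 𝒟 ⊆ 𝒲, 𝒟.Countable ∧ ∀ W ∈ 𝒲, ∀ x ∈ W, ∀ N : Set X, IsOpen N → x ∈ N →
      ∃ D ∈ 𝒟, (N ∩ D).Nonempty := by
  obtain ⟨𝒟, h𝒟⟩ := zorn_subset
    {𝒟 : Set (Set X) | 𝒟 ⊆ 𝒲 ∧ (∀ D ∈ 𝒟, D.Nonempty) ∧ 𝒟.PairwiseDisjoint id} (by
    intro c hc hch
    refine ⟨⋃₀ c, ⟨?_, ?_, ?_⟩, fun s hs => Set.subset_sUnion_of_mem hs⟩
    · exact Set.sUnion_subset (fun s hs => (hc hs).1)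
    · rintro D ⟨s, hs, hD⟩
      exact (hc hs).2.1 D hD
    · rintro D ⟨s, hs, hD⟩ D' ⟨s', hs', hD'⟩ hne
      rcases hch.total hs hs' with h | h
      · exact (hc hs').2.2 (h hD) hD' hne
      · exact (hc hs).2.2 hD (h hD') hne)
  obtain ⟨⟨h1, h2, h3⟩, hmax⟩ := h𝒟
  refine ⟨𝒟, h1, hc 𝒟 (fun D hD => ⟨ho D (h1 hD), h2 D hD⟩) h3, ?_⟩
  intro W hW x hxW N hN hxN
  by_contra hcon
  have hdis : ∀ D ∈ 𝒟, Disjoint (N ∩ W) D := by
    intro D hD
    rw [Set.disjoint_left]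
    intro y hy hyD
    exact hcon ⟨D, hD, y, hy.1, hyD⟩
  have hmem : insert (N ∩ W) 𝒟 ∈
      {𝒟 : Set (Set X) | 𝒟 ⊆ 𝒲 ∧ (∀ D ∈ 𝒟, D.Nonempty) ∧ 𝒟.PairwiseDisjoint id} := by
    refine ⟨?_, ?_, ?_⟩
    · exact Set.insert_subset (hh W hW _ (hN.inter (ho W hW)) Set.inter_subset_right) h1
    · rintro D (rfl | hD)
      · exact ⟨x, hxN, hxW⟩
      · exact h2 D hD
    · exact h3.insert (fun D hD _ => hdis D hD)
  have h4 : N ∩ W ∈ 𝒟 := hmax hmem (Set.subset_insert _ _) (Set.mem_insert _ _)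
  have h5 := hdis _ h4
  rw [disjoint_self] at h5
  exact (Set.nonempty_iff_ne_empty.1 (⟨x, hxN, hxW⟩ : (N ∩ W).Nonempty)) h5

/-- Every rectifiable `p`-space with countable Souslin number is Lindelöf. -/
theorem result {X : Type u} [TopologicalSpace X] (hrect : Rectifiable X) (hp : PSpace X)
    (hc : CountableSouslin X) : LindelofSpace X := by
  classical
  obtain ⟨e, φ, hφ1, hφ2⟩ := hrect
  have hfst : ∀ x y, (φ (x, y)).1 = x := by
    intro x y
    have : φ (x, y) ∈ φ '' ({x} ×ˢ (Set.univ : Set X)) := ⟨(x, y), ⟨rfl, Set.mem_univ _⟩, rfl⟩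
    rw [hφ1] at this
    exact this.1
  let q : X → X → X := fun z x => (φ (z, x)).2
  let p : X × X → X := fun w => (φ.symm w).2
  have hpq : ∀ z x, p (z, q z x) = x := by
    intro z x
    have h1 : (z, q z x) = φ (z, x) := Prod.ext (hfst z x).symm rfl
    show (φ.symm (z, q z x)).2 = x
    rw [h1, φ.symm_apply_apply]
  have hqq : ∀ x, q x x = e := fun x => by
    show (φ (x, x)).2 = e
    rw [hφ2]
  have hpc : Continuous p := continuous_snd.comp φ.symm.continuous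
  have hqc : ∀ x, Continuous (fun z => q z x) := fun x =>
    continuous_snd.comp (φ.continuous.comp (continuous_id.prodMk continuous_const))
  obtain ⟨K, U, hK, heK, hUo, hKU, hUb⟩ := exists_compact_base hp e
  refine ⟨isLindelof_of_countable_subcover ?_⟩
  intro ι C hCo hC
  -- the families `𝒲 m`
  let 𝒲 : ℕ → Set (Set X) := fun m =>
    {W | IsOpen W ∧ ∃ F : Finset ι, p '' (W ×ˢ U m) ⊆ ⋃ i ∈ F, C i}
  have h𝒲 : ∀ m, ∃ 𝒟 ⊆ 𝒲 m, 𝒟.Countable ∧ ∀ W ∈ 𝒲 m, ∀ x ∈ W, ∀ N : Set X, IsOpen N → x ∈ N →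
      ∃ D ∈ 𝒟, (N ∩ D).Nonempty := by
    intro m
    apply exists_countable_dense hc
    · exact fun W hW => hW.1
    · rintro W ⟨-, F, hF⟩ W' hW'o hW'
      exact ⟨hW'o, F, (Set.image_mono (Set.prod_mono_left hW')).trans hF⟩
  choose 𝒟 h𝒟1 h𝒟2 h𝒟3 using h𝒲
  have hcover : ∀ z : X, ∃ m, ∃ W ∈ 𝒲 m, z ∈ W := by
    intro z
    have hcz : IsCompact (p '' ({z} ×ˢ K)) := (isCompact_singleton.prod hK).image hpc
    obtain ⟨F, hF⟩ := hcz.elim_finite_subcover C hCo ((Set.subset_univ _).trans hC)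
    have hopen : IsOpen (p ⁻¹' (⋃ i ∈ F, C i)) :=
      (isOpen_biUnion (fun i _ => hCo i)).preimage hpc
    obtain ⟨W, O, hW, hO, hzW, hKO, hWO⟩ := generalized_tube_lemma (isCompact_singleton (x := z))
      hK hopen (Set.image_subset_iff.1 hF)
    obtain ⟨m, hm⟩ := hUb O hO hKO
    refine ⟨m, W, ⟨hW, F, ?_⟩, hzW rfl⟩
    exact Set.image_subset_iff.2 ((Set.prod_mono_right hm).trans hWO)
  -- the finite families
  have hfin : ∀ (m : ℕ) (D : Set X), ∃ F : Finset ι, D ∈ 𝒟 m → p '' (D ×ˢ U m) ⊆ ⋃ i ∈ F, C i := by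
    intro m D
    by_cases h : D ∈ 𝒟 m
    · obtain ⟨-, F, hF⟩ := h𝒟1 m h
      exact ⟨F, fun _ => hF⟩
    · exact ⟨∅, fun h' => (h h').elim⟩
  choose F hF using hfin
  refine ⟨⋃ m, ⋃ D ∈ 𝒟 m, (F m D : Set ι), ?_, ?_⟩
  · exact Set.countable_iUnion (fun m => (h𝒟2 m).biUnion (fun D _ => (F m D).countable_toSet))
  · intro x _
    obtain ⟨m, W, hW, hxW⟩ := hcover x
    have hN : IsOpen {z | q z x ∈ U m} := (hUo m).preimage (hqc x)
    have hxN : x ∈ {z | q z x ∈ U m} := by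
      show q x x ∈ U m
      rw [hqq]
      exact hKU m heK
    obtain ⟨D, hD, z, hzN, hzD⟩ := h𝒟3 m W hW x hxW _ hN hxN
    have hx : x ∈ p '' (D ×ˢ U m) := ⟨(z, q z x), ⟨hzD, hzN⟩, hpq z x⟩
    obtain ⟨i, hi, hxi⟩ := Set.mem_iUnion₂.1 (hF m D hD hx)
    exact Set.mem_biUnion (Set.mem_iUnion.2 ⟨m, Set.mem_biUnion hD hi⟩) hxi

end Pool.Agent.Results.MP_46c3d4_gt.RectifiableLindelof
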